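import Pool.Agent.W2helper12.IR.Trans

/-!
# Project IR (`MP_5f4f03_lc`), piece DENS: density points
-/

set_option autoImplicit false

namespace Pool.Agent.W2helper12.IR

open Pool.Agent.NPC Pool.Agent.H620R2.Gauge MeasureTheory Filter Topology
open Pool.Agent.W2helper58.IR
open Pool.Agent.H628R3.RO (cyl ofL Loc prob strs mem_strs nodup_strs prob_agree randomOracle
  measurableSet_of_loc)

theorem prob_le_one (S : Set Oracle) : prob S ≤ 1 := by
  have h : randomOracle.real S ≤ 1 := measureReal_le_one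
  exact h

theorem prob_nonneg (S : Set Oracle) : 0 ≤ prob S := measureReal_nonneg

theorem integrableOn_of {f : Oracle → ℝ} (hm : Measurable f) (h0 : ∀ B, 0 ≤ f B ∧ f B ≤ 1)
    (S : Set Oracle) : IntegrableOn f S ranO := by
  refine Integrable.integrableOn ?_
  refine Integrable.of_bound hm.aestronglyMeasurable 1 (Eventually.of_forall fun B => ?_)
  rw [Real.norm_eq_abs, abs_of_nonneg (h0 B).1]
  exact (h0 B).2

/-- upper bound for an integral: at most `θ` on a large part of the set -/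
theorem int_le {f : Oracle → ℝ} (hm : Measurable f) (h0 : ∀ B, 0 ≤ f B ∧ f B ≤ 1)
    {C W : Set Oracle} (hC : MeasurableSet C) (hW : MeasurableSet W) {θ : ℝ}
    (hθ : ∀ B ∈ W, f B ≤ θ) :
    ∫ B in C, f B ∂ranO ≤ θ * prob (W ∩ C) + (prob C - prob (W ∩ C)) := by
  have hCW : MeasurableSet (W ∩ C) := hW.inter hC
  have hd : MeasurableSet (C \ W) := hC.diff hW
  have e : C = (W ∩ C) ∪ (C \ W) := by
    ext B
    by_cases hB : B ∈ W <;> simp [hB]
  have hdis : Disjoint (W ∩ C) (C \ W) := by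
    rw [Set.disjoint_left]
    rintro B ⟨h1, -⟩ ⟨-, h2⟩
    exact h2 h1
  have h1 : ∫ B in C, f B ∂ranO = ∫ B in W ∩ C, f B ∂ranO + ∫ B in C \ W, f B ∂ranO := by
    conv_lhs => rw [e]
    exact setIntegral_union hdis hd (integrableOn_of hm h0 _) (integrableOn_of hm h0 _)
  have h2 : prob C = prob (W ∩ C) + prob (C \ W) := by
    conv_lhs => rw [e]
    exact measureReal_union hdis hd
  have h3 : ∫ B in W ∩ C, f B ∂ranO ≤ ∫ _ in W ∩ C, θ ∂ranO :=
    setIntegral_mono_on (integrableOn_of hm h0 _) (integrableOn_const (measure_ne_top _ _)) hCW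
      (fun B hB => hθ B hB.1)
  have h4 : ∫ B in C \ W, f B ∂ranO ≤ ∫ _ in C \ W, (1 : ℝ) ∂ranO :=
    setIntegral_mono_on (integrableOn_of hm h0 _) (integrableOn_const (measure_ne_top _ _)) hd
      (fun B _ => (h0 B).2)
  rw [setIntegral_const, smul_eq_mul] at h3 h4
  have e3 : ranO.real (W ∩ C) = prob (W ∩ C) := rfl
  have e4 : ranO.real (C \ W) = prob (C \ W) := rfl
  rw [e3] at h3
  rw [e4] at h4
  rw [h1, h2]
  linarith

/-- Markov -/
theorem markov {f : Oracle → ℝ} (hm : Measurable f) (h0 : ∀ B, 0 ≤ f B ∧ f B ≤ 1)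
    {C : Set Oracle} (hC : MeasurableSet C) {S : Set Oracle} (hS : MeasurableSet S)
    (hSC : S ⊆ C) (h : ∀ B ∈ S, 1 / 4 < f B) :
    prob S ≤ 4 * ∫ B in C, f B ∂ranO := by
  have h1 : ∫ _ in S, (1 / 4 : ℝ) ∂ranO ≤ ∫ B in S, f B ∂ranO :=
    setIntegral_mono_on (integrableOn_const (measure_ne_top _ _)) (integrableOn_of hm h0 _) hS
      (fun B hB => (h B hB).le)
  have h2 : ∫ B in S, f B ∂ranO ≤ ∫ B in C, f B ∂ranO :=
    setIntegral_mono_set (integrableOn_of hm h0 _)
      (Eventually.of_forall fun B => (h0 B).1) (Eventually.of_forall hSC)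
  rw [setIntegral_const, smul_eq_mul] at h1
  have e : ranO.real S = prob S := rfl
  rw [e] at h1
  linarith

theorem p_dens : P_dens := by
  intro c a hc ha hcl hal havg
  have hcm : ∀ n, Measurable (c n) := fun n => by
    obtain ⟨b, hb⟩ := hcl n
    exact meas_of_loc (K := {u | u.length ≤ b}) (Pool.Agent.H628R3.RO.finite_length_le b)
      (fun A A' h => hb A A' fun u hu => h u hu.le)
  have ham : ∀ ℓ L n, Measurable (a ℓ L n) := fun ℓ L n => by
    obtain ⟨b, hb⟩ := hal ℓ L n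
    exact meas_of_loc (K := {u | u.length ≤ b}) (Pool.Agent.H628R3.RO.finite_length_le b)
      (fun A A' h => hb A A' fun u hu => h u hu.le)
  -- the bad sets
  set W : ℕ → Set Oracle := fun n₀ => {B | (∀ n, n₀ ≤ n → c n B ≤ 1 / 100) ∧
    ∀ (ℓ : ℕ) (L : List (List Bool)), ∃ N : ℕ, ∀ n, N ≤ n → 1 / 4 < a ℓ L n B} with hWdef
  have hWm : ∀ n₀, MeasurableSet (W n₀) := by
    intro n₀
    have e : W n₀ = (⋂ n : ℕ, ⋂ _ : n₀ ≤ n, {B | c n B ≤ 1 / 100}) ∩
        ⋂ (ℓ : ℕ), ⋂ (L : List (List Bool)), ⋃ N : ℕ, ⋂ n : ℕ, ⋂ _ : N ≤ n,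
          {B | 1 / 4 < a ℓ L n B} := by
      ext B
      simp only [hWdef, Set.mem_ofPred_eq, Set.mem_inter_iff, Set.mem_iInter, Set.mem_iUnion]
    rw [e]
    refine MeasurableSet.inter ?_ ?_
    · exact MeasurableSet.iInter fun n => MeasurableSet.iInter fun _ =>
        measurableSet_le (hcm n) measurable_const
    · exact MeasurableSet.iInter fun ℓ => MeasurableSet.iInter fun L =>
        MeasurableSet.iUnion fun N => MeasurableSet.iInter fun n => MeasurableSet.iInter fun _ =>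
          measurableSet_lt measurable_const (ham ℓ L n)
  have hW0 : ∀ n₀, ranO (W n₀) = 0 := by
    intro n₀
    by_contra hne
    have hpos : 0 < prob (W n₀) := by
      have h1 : 0 < (ranO (W n₀)).toReal := ENNReal.toReal_pos hne (measure_ne_top _ _)
      exact h1
    obtain ⟨ℓ, L, hL⟩ := Pool.Agent.W2helper58.RU.exists_cyl_dense (hWm n₀) hpos
      (θ := 99 / 100) (by norm_num) (by norm_num)
    have hCm := Pool.Agent.W2helper58.RU.measurableSet_cyl ℓ L
    have hCpos := Pool.Agent.W2helper58.RU.prob_cyl_pos ℓ L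
    set P := prob (cyl ℓ L) with hP
    -- increasing sets
    set V : ℕ → Set Oracle := fun N => (W n₀ ∩ cyl ℓ L) ∩ {B | ∀ n, N ≤ n → 1 / 4 < a ℓ L n B}
      with hV
    have hVm : ∀ N, MeasurableSet (V N) := by
      intro N
      have e : {B : Oracle | ∀ n, N ≤ n → 1 / 4 < a ℓ L n B} =
          ⋂ n : ℕ, ⋂ _ : N ≤ n, {B | 1 / 4 < a ℓ L n B} := by
        ext B
        simp only [Set.mem_ofPred_eq, Set.mem_iInter]
      refine ((hWm n₀).inter hCm).inter ?_
      rw [e]
      exact MeasurableSet.iInter fun n => MeasurableSet.iInter fun _ =>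
          measurableSet_lt measurable_const (ham ℓ L n)
    have hVmono : Monotone V := by
      intro N N' h B hB
      exact ⟨hB.1, fun n hn => hB.2 n (h.trans hn)⟩
    have hVU : ⋃ N, V N = W n₀ ∩ cyl ℓ L := by
      ext B
      simp only [Set.mem_iUnion]
      constructor
      · rintro ⟨N, hN⟩
        exact hN.1
      · intro hB
        obtain ⟨N, hN⟩ := hB.1.2 ℓ L
        exact ⟨N, hB, hN⟩
    have hlim := Pool.Agent.W2helper58.RU.tendsto_prob_iUnion (S := V) hVmono
    rw [hVU] at hlim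
    have hev := hlim.eventually (lt_mem_nhds hL)
    obtain ⟨N, hN, hNn, hNa⟩ := (hev.and ((eventually_ge_atTop n₀).and (havg ℓ L))).exists
    have hi := int_le (hcm N) (hc N) hCm (hWm n₀) (θ := 1 / 100)
      (fun B hB => hB.1 N hNn)
    have hm := markov (ham ℓ L N) (ha ℓ L N) hCm (hVm N) (fun B hB => hB.1.2)
      (fun B hB => hB.2 N le_rfl)
    rw [ranO_real, ← hP] at hNa
    have hle : prob (W n₀ ∩ cyl ℓ L) ≤ P := measureReal_mono Set.inter_subset_right
    rw [← hP] at hi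
    linarith
  have hnull : ranO (⋃ n₀, W n₀) = 0 := measure_iUnion_null hW0
  have hae : ∀ᵐ B ∂ranO, B ∉ ⋃ n₀, W n₀ := measure_eq_zero_iff_ae_notMem.1 hnull
  filter_upwards [hae] with B hB hcB
  by_contra hcon
  push Not at hcon
  apply hB
  obtain ⟨n₀, hn₀⟩ := eventually_atTop.1 hcB
  refine Set.mem_iUnion.2 ⟨n₀, hn₀, fun ℓ L => ?_⟩
  have h1 := hcon ℓ L
  rw [eventually_atTop] at h1
  exact h1

end Pool.Agent.W2helper12.IR
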