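import Pool.Agent.W2helper58.IR.Stm

/-!
# Project IR (`MP_5f4f03_lc`), piece TRANS: the integral of a local function over a cylinder
-/

set_option autoImplicit false

namespace Pool.Agent.W2helper12.IR

open Pool.Agent.NPC Pool.Agent.H620R2.Gauge MeasureTheory
open Pool.Agent.W2helper58.IR
open Pool.Agent.H628R3.RO (cyl ofL Loc prob strs mem_strs nodup_strs prob_agree randomOracle
  measurableSet_of_loc)

theorem ranO_real (S : Set Oracle) : (ranO S).toReal = prob S := rfl

/-- A function which depends only on short strings is measurable. -/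
theorem meas_of_loc {f : Oracle → ℝ} {K : Set (List Bool)} (hK : K.Finite)
    (h : ∀ A A' : Oracle, (∀ u ∈ K, A u = A' u) → f A = f A') : Measurable f := fun S _ =>
  measurableSet_of_loc hK (fun A A' hA => by rw [Set.mem_preimage, Set.mem_preimage, h A A' hA])

/-- the part of the cylinder where the oracle is `ω` on `X` -/
def part (ℓ : ℕ) (L : List (List Bool)) (X : Finset (List Bool)) (ω : X → Bool) : Set Oracle :=
  {B | B ∈ cyl ℓ L ∧ ∀ u : X, B u = ω u}

theorem part_agree {ℓ : ℕ} {L : List (List Bool)} {X : Finset (List Bool)}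
    (hX : ∀ u ∈ X, ℓ < u.length) (ω : X → Bool) :
    part ℓ L X ω = {A | ∀ x ∈ strs ℓ ++ X.toList, A x = ovr ℓ L X ω x} := by
  ext B
  unfold part cyl ovr
  simp only [Set.mem_ofPred_eq, List.mem_append, mem_strs, Finset.mem_toList]
  constructor
  · rintro ⟨h1, h2⟩ x (hx | hx)
    · rw [if_pos hx]
      exact h1 x hx
    · rw [if_neg (by have := hX x hx; omega), dif_pos hx]
      exact h2 ⟨x, hx⟩
  · intro h
    refine ⟨fun x hx => ?_, fun u => ?_⟩
    · have := h x (Or.inl hx)
      rwa [if_pos hx] at this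
    · have := h u.1 (Or.inr u.2)
      rwa [if_neg (by have := hX u.1 u.2; omega), dif_pos u.2] at this

theorem nodup_app {ℓ : ℕ} {X : Finset (List Bool)} (hX : ∀ u ∈ X, ℓ < u.length) :
    (strs ℓ ++ X.toList).Nodup := by
  rw [List.nodup_append]
  refine ⟨nodup_strs ℓ, X.nodup_toList, ?_⟩
  intro a ha b hb hab
  rw [mem_strs] at ha
  have := hX b (Finset.mem_toList.1 hb)
  rw [hab] at ha
  omega

theorem prob_part {ℓ : ℕ} {L : List (List Bool)} {X : Finset (List Bool)}
    (hX : ∀ u ∈ X, ℓ < u.length) (ω : X → Bool) :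
    prob (part ℓ L X ω) = prob (cyl ℓ L) / 2 ^ X.card := by
  rw [part_agree hX, prob_agree _ (nodup_app hX), Pool.Agent.W2helper58.RU.prob_cyl,
    List.length_append, Finset.length_toList, pow_add, one_div_pow, one_div_pow]
  ring

theorem measurable_part (ℓ : ℕ) (L : List (List Bool)) (X : Finset (List Bool)) (ω : X → Bool) :
    MeasurableSet (part ℓ L X ω) := by
  refine measurableSet_of_loc (K := {u | u.length ≤ ℓ} ∪ X)
    ((Pool.Agent.H628R3.RO.finite_length_le ℓ).union X.finite_toSet) ?_
  intro A A' h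
  unfold part cyl
  simp only [Set.mem_ofPred_eq]
  refine and_congr (forall₂_congr fun x hx => ?_) (forall_congr' fun u => ?_)
  · rw [h x (Or.inl hx)]
  · rw [h u (Or.inr u.2)]

theorem p_trans : P_trans := by
  intro ℓ L X h hX hloc
  classical
  have hU : cyl ℓ L = ⋃ ω : X → Bool, part ℓ L X ω := by
    ext B
    simp only [Set.mem_iUnion]
    constructor
    · intro hB
      exact ⟨fun u => B u, hB, fun u => rfl⟩
    · rintro ⟨ω, hB, -⟩
      exact hB
  have hd : Pairwise (fun ω ω' : X → Bool => Disjoint (part ℓ L X ω) (part ℓ L X ω')) := by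
    intro ω ω' hne
    rw [Set.disjoint_left]
    rintro B ⟨-, h1⟩ ⟨-, h2⟩
    exact hne (funext fun u => (h1 u).symm.trans (h2 u))
  have hv : ∀ ω : X → Bool, ∀ B ∈ part ℓ L X ω, h B = h (ovr ℓ L X ω) := by
    intro ω B hB
    refine hloc _ _ ?_
    rw [part_agree hX] at hB
    intro u hu
    refine hB u ?_
    rw [List.mem_append, mem_strs, Finset.mem_toList]
    exact hu
  have hint : ∀ ω : X → Bool, IntegrableOn h (part ℓ L X ω) ranO := by
    intro ω
    have h1 : IntegrableOn (fun _ : Oracle => h (ovr ℓ L X ω)) (part ℓ L X ω) ranO :=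
      integrableOn_const (measure_ne_top _ _)
    exact h1.congr_fun (fun B hB => (hv ω B hB).symm) (measurable_part ℓ L X ω)
  rw [hU, integral_iUnion_fintype (fun ω => measurable_part ℓ L X ω) hd hint, ← hU]
  have hs : ∀ ω : X → Bool, ∫ B in part ℓ L X ω, h B ∂ranO =
      prob (cyl ℓ L) / 2 ^ X.card * h (ovr ℓ L X ω) := by
    intro ω
    rw [setIntegral_congr_fun (measurable_part ℓ L X ω) (g := fun _ => h (ovr ℓ L X ω)) (hv ω),
      setIntegral_const, smul_eq_mul, ← prob_part hX ω]
    rfl
  rw [Finset.sum_congr rfl (fun ω _ => hs ω), ← Finset.mul_sum, ranO_real]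
  ring

end Pool.Agent.W2helper12.IR
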